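import Pool.Agent.H83.X.T2

/-!
Board x83_modules, row AVG: mean squares along the differences of primes.
-/

set_option autoImplicit false

open MeasureTheory ProbabilityTheory Filter Topology Finset
open scoped Nat ENNReal

namespace Pool.Agent.H95.X

open Pool.Agent.H83.X
open Pool.Agent.H24.T2 (Pset)
open Pool.Agent.H24.AG (ee)

theorem norm_ee (x : ℝ) : ‖ee x‖ = 1 := by
  unfold ee
  rw [Complex.norm_exp]
  simp

theorem conj_ee (x : ℝ) : (starRingEnd ℂ) (ee x) = ee (-x) := by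
  unfold ee
  rw [← Complex.exp_conj]
  congr 1
  rw [map_mul, map_mul, map_mul, Complex.conj_I, Complex.conj_ofReal, Complex.conj_ofReal]
  have h2 : (starRingEnd ℂ) 2 = 2 := Complex.conj_ofNat 2
  rw [h2]
  push_cast
  ring

theorem cont_ee : Continuous ee := by
  unfold ee
  fun_prop

/-- the measure of a countable set -/
theorem countable_le (σ : Measure (Set.Ico (0 : ℝ) 1)) [IsFiniteMeasure σ] (t : ℝ)
    (ht : ∀ A : Finset ℝ, σ.real {x | (x : ℝ) ∈ A} ≤ t) (C : Set (Set.Ico (0 : ℝ) 1))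
    (hC : C.Countable) : σ C ≤ ENNReal.ofReal t := by
  classical
  have h1 : σ C = ∑' x : C, σ {x.1} := by
    conv_lhs => rw [← Set.biUnion_of_singleton C]
    rw [measure_biUnion hC]
    · intro a _ b _ hab
      simpa using hab
    · intro b _
      exact measurableSet_singleton b
  rw [h1, ENNReal.tsum_eq_iSup_sum]
  refine iSup_le fun s => ?_
  have h2 : ∑ a ∈ s, σ {a.1} = σ (⋃ a ∈ s, {a.1}) := by
    rw [measure_biUnion_finset]
    · intro a _ b _ hab
      simpa [Subtype.ext_iff] using hab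
    · intro b _
      exact measurableSet_singleton b.1
  rw [h2]
  have h3 : σ (⋃ a ∈ s, {a.1}) ≤ σ {x | (x : ℝ) ∈ s.image fun a => ((a.1 : Set.Ico (0 : ℝ) 1) : ℝ)} := by
    refine measure_mono ?_
    intro x hx
    simp only [Set.mem_iUnion, Set.mem_singleton_iff, exists_prop] at hx
    obtain ⟨a, ha, rfl⟩ := hx
    exact Finset.mem_image_of_mem (fun a : C => ((a.1 : Set.Ico (0 : ℝ) 1) : ℝ)) ha
  refine h3.trans ?_
  have h4 := ht (s.image fun a => ((a.1 : Set.Ico (0 : ℝ) 1) : ℝ))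
  rw [← ENNReal.ofReal_toReal (measure_ne_top σ _)]
  exact ENNReal.ofReal_le_ofReal h4

/-- the mean of the squares -/
noncomputable def gm (h m : ℕ) (z : Set.Ico (0 : ℝ) 1 × Set.Ico (0 : ℝ) 1) : ℝ :=
  ‖∑ p ∈ Pset 2 m, ee ((z.1 - z.2) * h * p)‖ ^ 2 / ((Pset 2 m).card : ℝ) ^ 2

theorem gm_cont (h m : ℕ) : Continuous (gm h m) := by
  unfold gm
  have := cont_ee
  fun_prop

theorem gm_nonneg (h m : ℕ) (z : Set.Ico (0 : ℝ) 1 × Set.Ico (0 : ℝ) 1) : 0 ≤ gm h m z := by
  unfold gm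
  positivity

theorem gm_le (h m : ℕ) (z : Set.Ico (0 : ℝ) 1 × Set.Ico (0 : ℝ) 1) : gm h m z ≤ 1 := by
  unfold gm
  have h1 : ‖∑ p ∈ Pset 2 m, ee ((z.1 - z.2) * h * p)‖ ≤ (Pset 2 m).card := by
    refine (norm_sum_le _ _).trans ?_
    rw [Finset.sum_congr rfl fun p _ => norm_ee _]
    simp
  have h2 : ‖∑ p ∈ Pset 2 m, ee ((z.1 - z.2) * h * p)‖ ^ 2 ≤ ((Pset 2 m).card : ℝ) ^ 2 :=
    pow_le_pow_left₀ (norm_nonneg _) h1 2
  exact div_le_one_of_le₀ h2 (by positivity)

theorem sq_int (σ : Measure (Set.Ico (0 : ℝ) 1)) [IsFiniteMeasure σ] (k : ℝ) :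
    ((‖∫ x, ee ((x : ℝ) * k) ∂σ‖ ^ 2 : ℝ) : ℂ) =
      ∫ z : Set.Ico (0 : ℝ) 1 × Set.Ico (0 : ℝ) 1, ee (((z.1 : ℝ) - z.2) * k) ∂(σ.prod σ) := by
  have h1 : ((‖∫ x, ee ((x : ℝ) * k) ∂σ‖ ^ 2 : ℝ) : ℂ) =
      (∫ x, ee ((x : ℝ) * k) ∂σ) * ∫ x, (starRingEnd ℂ) (ee ((x : ℝ) * k)) ∂σ := by
    rw [integral_conj, Complex.mul_conj, Complex.normSq_eq_norm_sq]
  rw [h1, ← integral_prod_mul (μ := σ) (ν := σ) (fun x : Set.Ico (0 : ℝ) 1 => ee ((x : ℝ) * k))
    (fun x : Set.Ico (0 : ℝ) 1 => (starRingEnd ℂ) (ee ((x : ℝ) * k)))]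
  refine integral_congr_ae (Eventually.of_forall fun z => ?_)
  show ee ((z.1 : ℝ) * k) * (starRingEnd ℂ) (ee ((z.2 : ℝ) * k)) = ee (((z.1 : ℝ) - z.2) * k)
  rw [conj_ee, ← ee_add]
  congr 1
  ring

theorem int_ee (σ : Measure (Set.Ico (0 : ℝ) 1)) [IsFiniteMeasure σ] (k : ℝ) :
    Integrable (fun z : Set.Ico (0 : ℝ) 1 × Set.Ico (0 : ℝ) 1 => ee (((z.1 : ℝ) - z.2) * k))
      (σ.prod σ) := by
  refine Integrable.of_bound (C := 1) ?_ (Eventually.of_forall fun z => (norm_ee _).le)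
  have := cont_ee
  exact (by fun_prop : Continuous fun z : Set.Ico (0 : ℝ) 1 × Set.Ico (0 : ℝ) 1 =>
    ee (((z.1 : ℝ) - z.2) * k)).aestronglyMeasurable

theorem avg_eq (σ : Measure (Set.Ico (0 : ℝ) 1)) [IsFiniteMeasure σ] (h m : ℕ) :
    (∑ p ∈ Pset 2 m, ∑ p' ∈ Pset 2 m, ‖∫ x, ee ((x : ℝ) * (((p : ℝ) - p') * h)) ∂σ‖ ^ 2) /
      ((Pset 2 m).card : ℝ) ^ 2 = ∫ z, gm h m z ∂(σ.prod σ) := by
  have h1 : ((∑ p ∈ Pset 2 m, ∑ p' ∈ Pset 2 m,
      ‖∫ x, ee ((x : ℝ) * (((p : ℝ) - p') * h)) ∂σ‖ ^ 2 : ℝ) : ℂ) =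
      ∫ z : Set.Ico (0 : ℝ) 1 × Set.Ico (0 : ℝ) 1,
        ((‖∑ p ∈ Pset 2 m, ee (((z.1 : ℝ) - z.2) * h * p)‖ ^ 2 : ℝ) : ℂ) ∂(σ.prod σ) := by
    rw [Complex.ofReal_sum]
    have h2 : ∀ z : Set.Ico (0 : ℝ) 1 × Set.Ico (0 : ℝ) 1,
        ((‖∑ p ∈ Pset 2 m, ee (((z.1 : ℝ) - z.2) * h * p)‖ ^ 2 : ℝ) : ℂ) =
          ∑ p ∈ Pset 2 m, ∑ p' ∈ Pset 2 m, ee (((z.1 : ℝ) - z.2) * (((p : ℝ) - p') * h)) := by
      intro z
      rw [← Complex.normSq_eq_norm_sq, ← Complex.mul_conj, map_sum, Finset.sum_mul_sum]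
      refine Finset.sum_congr rfl fun p _ => Finset.sum_congr rfl fun p' _ => ?_
      rw [conj_ee, ← ee_add]
      congr 1
      ring
    rw [integral_congr_ae (Eventually.of_forall h2), integral_finsetSum]
    · refine Finset.sum_congr rfl fun p _ => ?_
      rw [Complex.ofReal_sum, integral_finsetSum]
      · exact Finset.sum_congr rfl fun p' _ => sq_int σ _
      · intro p' _
        exact int_ee σ _
    · intro p _
      exact integrable_finsetSum _ fun p' _ => int_ee σ _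
  have h4 : ∫ z : Set.Ico (0 : ℝ) 1 × Set.Ico (0 : ℝ) 1,
        ((‖∑ p ∈ Pset 2 m, ee (((z.1 : ℝ) - z.2) * h * p)‖ ^ 2 : ℝ) : ℂ) ∂(σ.prod σ) =
      ((∫ z : Set.Ico (0 : ℝ) 1 × Set.Ico (0 : ℝ) 1,
        ‖∑ p ∈ Pset 2 m, ee (((z.1 : ℝ) - z.2) * h * p)‖ ^ 2 ∂(σ.prod σ) : ℝ) : ℂ) :=
    integral_ofReal
  have h3 := Complex.ofReal_injective (h1.trans h4)
  rw [h3, ← integral_div]
  rfl

theorem pf_AVG (h : T_VWT) : T_AVG := by
  intro σ _ t η H ht hH hη
  have ht0 : 0 ≤ t := measureReal_nonneg.trans (ht ∅)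
  have hH' : (H : ℝ) ≠ 0 := by exact_mod_cast hH.ne'
  set D : Set (Set.Ico (0 : ℝ) 1 × Set.Ico (0 : ℝ) 1) := {z | ¬ Irrational ((z.1 : ℝ) - z.2)}
    with hD
  have hDm : MeasurableSet D := by
    have h1 : D = (fun z : Set.Ico (0 : ℝ) 1 × Set.Ico (0 : ℝ) 1 => (z.1 : ℝ) - z.2) ⁻¹'
        (Set.range ((↑) : ℚ → ℝ)) := by
      ext z
      simp only [hD, Set.mem_ofPred_eq, Set.mem_preimage, Irrational, not_not]
    rw [h1]
    exact (by fun_prop : Measurable fun z : Set.Ico (0 : ℝ) 1 × Set.Ico (0 : ℝ) 1 =>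
      (z.1 : ℝ) - z.2) (Set.countable_range _).measurableSet
  have hDle : (σ.prod σ).real D ≤ t * σ.real Set.univ := by
    have h1 : (σ.prod σ) D ≤ ENNReal.ofReal t * σ Set.univ := by
      rw [Measure.prod_apply hDm]
      refine (lintegral_mono (g := fun _ => ENNReal.ofReal t) fun x => ?_).trans ?_
      · refine countable_le σ t ht _ ?_
        have h2 : Prod.mk x ⁻¹' D ⊆ (fun y : Set.Ico (0 : ℝ) 1 => (x : ℝ) - y) ⁻¹'
            (Set.range ((↑) : ℚ → ℝ)) := by
          intro y hy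
          simpa only [hD, Set.mem_preimage, Set.mem_ofPred_eq, Irrational, not_not] using hy
        refine Set.Countable.mono h2 ?_
        refine Set.Countable.preimage_of_injOn (Set.countable_range _) ?_
        intro a _ b _ hab
        simp only at hab
        exact Subtype.ext (by linarith)
      · rw [lintegral_const]
    calc (σ.prod σ).real D = ((σ.prod σ) D).toReal := rfl
      _ ≤ (ENNReal.ofReal t * σ Set.univ).toReal :=
        ENNReal.toReal_mono (ENNReal.mul_ne_top ENNReal.ofReal_ne_top (measure_ne_top σ _)) h1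
      _ = t * σ.real Set.univ := by
        rw [ENNReal.toReal_mul, ENNReal.toReal_ofReal ht0]
        rfl
  have hlim : Tendsto (fun m => ∫ z, Dᶜ.indicator (gm H m) z ∂(σ.prod σ)) atTop (𝓝 0) := by
    have h1 : Tendsto (fun m => ∫ z, Dᶜ.indicator (gm H m) z ∂(σ.prod σ)) atTop
        (𝓝 (∫ z, (0 : ℝ) ∂(σ.prod σ))) := by
      refine tendsto_integral_of_dominated_convergence (fun _ => (1 : ℝ)) ?_ ?_ ?_ ?_
      · intro m
        exact ((gm_cont H m).measurable.indicator hDm.compl).aestronglyMeasurable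
      · exact integrable_const _
      · intro m
        refine Eventually.of_forall fun z => ?_
        rw [Real.norm_eq_abs, abs_le]
        unfold Set.indicator
        split_ifs
        · exact ⟨by linarith [gm_nonneg H m z], gm_le H m z⟩
        · norm_num
      · refine Eventually.of_forall fun z => ?_
        by_cases hz : z ∈ Dᶜ
        · have h2 : Irrational (((z.1 : ℝ) - z.2) * H) := by
            have h3 : Irrational ((z.1 : ℝ) - z.2) := by
              by_contra h4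
              exact hz h4
            exact h3.mul_natCast hH.ne'
          have h3 := h (fun _ => 1) ⟨fun _ => zero_le_one, fun _ => le_refl _,
            fun m p _ p' _ hp => by
              have : (p : ℝ) ≤ p' := by exact_mod_cast hp
              linarith⟩ _ h2
          have h4 := h3.pow 2
          rw [zero_pow two_ne_zero] at h4
          refine h4.congr fun m => ?_
          rw [Set.indicator_of_mem hz]
          unfold gm
          rw [div_pow]
          congr 3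
          exact Finset.sum_congr rfl fun p _ => by push_cast; ring
        · simp only [Set.indicator_of_notMem hz]
          exact tendsto_const_nhds
    simpa using h1
  obtain ⟨m₀, hm₀⟩ := Filter.eventually_atTop.1 (hlim.eventually (eventually_le_nhds hη))
  refine ⟨m₀, fun m hm => ?_⟩
  rw [avg_eq]
  have hgi : Integrable (gm H m) (σ.prod σ) :=
    Integrable.of_bound (C := 1) (gm_cont H m).aestronglyMeasurable
      (Eventually.of_forall fun z => by
        rw [Real.norm_eq_abs, abs_le]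
        exact ⟨by linarith [gm_nonneg H m z], gm_le H m z⟩)
  have h5 : ∫ z, gm H m z ∂(σ.prod σ) ≤
      ∫ z, (D.indicator (fun _ => (1 : ℝ)) z + Dᶜ.indicator (gm H m) z) ∂(σ.prod σ) := by
    refine integral_mono hgi (((integrable_const _).indicator hDm).add
      (hgi.indicator hDm.compl)) fun z => ?_
    show gm H m z ≤ D.indicator (fun _ => (1 : ℝ)) z + Dᶜ.indicator (gm H m) z
    by_cases hz : z ∈ D
    · rw [Set.indicator_of_mem hz, Set.indicator_of_notMem (by simpa using hz)]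
      linarith [gm_le H m z]
    · rw [Set.indicator_of_notMem hz, Set.indicator_of_mem (by simpa using hz)]
      linarith
  rw [integral_add ((integrable_const _).indicator hDm) (hgi.indicator hDm.compl),
    integral_indicator hDm, setIntegral_const, smul_eq_mul, mul_one] at h5
  have h6 := hm₀ m hm
  linarith

end Pool.Agent.H95.X
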